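import Mathlib.SetTheory.Cardinal.Pigeonhole
import Mathlib.MeasureTheory.MeasurableSpace.Card
import Mathlib.MeasureTheory.Measure.Haar.Unique
import Mathlib.MeasureTheory.Integral.IntervalIntegral.Periodic
import Mathlib.MeasureTheory.Constructions.Polish.Basic
import Mathlib.Algebra.Ring.BooleanRing
import Pool.Agent.MP_0f15b2_an.Om

/-!
Measure spaces for the Radon form of the counterexample: a graph of positive outer measure in
Cantor space times the circle, a compact group in which every set of at most continuum many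
points is null, and perfectness of Radon measures.
-/

set_option autoImplicit false

open Filter Topology Set MeasureTheory Cardinal
open scoped ENNReal

noncomputable section

namespace Pool.Agent.MP_0f15b2_an.Rd

/-- A family of sets, each at least as large as the index set, has an injective choice function. -/
lemma exists_sdr {ι α : Type} (G : ι → Set α) (h : ∀ i, #ι ≤ #(G i)) :
    ∃ f : ι → α, Function.Injective f ∧ ∀ i, f i ∈ G i := by
  obtain ⟨_, _, hr⟩ := Cardinal.exists_ord_eq_type_lt ι
  have key : ∀ (i : ι) (g : ∀ j, j < i → α), ∃ a ∈ G i, ∀ j (hj : j < i), g j hj ≠ a := by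
    intro i g
    by_contra hc
    push Not at hc
    have h1 : G i ⊆ range fun j : Iio i => g j j.2 := fun a ha => by
      obtain ⟨j, hj, e⟩ := hc a ha
      exact ⟨⟨j, hj⟩, e⟩
    exact absurd ((h i).trans ((mk_le_mk_of_subset h1).trans mk_range_le))
      (not_le.2 (Cardinal.mk_Iio_lt i hr))
  choose F hF1 hF2 using key
  let f : ι → α := (wellFounded_lt (α := ι)).fix F
  have hf : ∀ i, f i = F i fun j _ => f j := fun i => WellFounded.fix_eq _ _ _
  have hlt : ∀ i j, j < i → f j ≠ f i := fun i j hj => by
    rw [hf i]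
    exact hF2 i (fun j _ => f j) j hj
  refine ⟨f, fun i j hij => ?_, fun i => by rw [hf i]; exact hF1 _ _⟩
  rcases lt_trichotomy i j with h1 | h1 | h1
  · exact absurd hij (hlt j i h1)
  · exact h1
  · exact absurd hij.symm (hlt i j h1)

/-- The circle. -/
abbrev Tc : Type := UnitAddCircle

instance : IsProbabilityMeasure (volume : Measure Tc) := ⟨UnitAddCircle.measure_univ⟩

/-- The small space. -/
abbrev Sm : Type := Cn × Tc

/-- The measure on the small space. -/
def muS : Measure Sm := lam.prod volume

instance : IsProbabilityMeasure muS := by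
  unfold muS; infer_instance

lemma card_conull {Z : Set Cn} (hZ : lam Z = 0) : 𝔠 ≤ #(Zᶜ : Set Cn) := by
  obtain ⟨W, hZW, hW, hW0⟩ := exists_measurable_superset_of_null hZ
  have hs := hW.compl.standardBorel
  have hu : ¬ Countable (Wᶜ : Set Cn) := by
    intro hc
    have h1 : lam Wᶜ = 0 := (countable_coe_iff.1 hc).measure_zero _
    have h2 := measure_union_null hW0 h1
    rw [union_compl_self, measure_univ] at h2
    exact one_ne_zero h2
  have e := (PolishSpace.measurableEquivNatBoolOfNotCountable hu).toEquiv.cardinal_eq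
  refine le_trans ?_ (mk_le_mk_of_subset (compl_subset_compl.2 hZW))
  rw [e]
  simp

/-- A graph of positive outer measure. -/
lemma exists_graph : ∃ Γ : Set Sm, muS Γ ≠ 0 ∧ InjOn Prod.fst Γ := by
  let ι := {N : Set Sm // MeasurableSet N ∧ muS N = 0}
  have hι : #ι ≤ 𝔠 := by
    have h1 := MeasurableSpace.cardinal_measurableSet_le_continuum
      (s := MeasurableSpace.countableGeneratingSet Sm)
      ((le_aleph0_iff_set_countable.2 MeasurableSpace.countable_countableGeneratingSet).trans
        aleph0_le_continuum)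
    rw [MeasurableSpace.generateFrom_countableGeneratingSet] at h1
    exact (mk_le_mk_of_subset (s := {N : Set Sm | MeasurableSet N ∧ muS N = 0})
      fun N hN => hN.1).trans h1
  let G : ι → Set Cn := fun N => {t | ∀ r : Tc, (t, r) ∈ N.1}ᶜ
  have hG : ∀ N, #ι ≤ #(G N) := by
    intro N
    refine hι.trans (card_conull ?_)
    refine measure_mono_null (fun t ht => ?_) (Measure.measure_ae_null_of_prod_null N.2.2)
    have : Prod.mk t ⁻¹' N.1 = Set.univ := eq_univ_of_forall ht
    simp [this]
  obtain ⟨f, hf, hfG⟩ := exists_sdr G hG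
  have hr : ∀ N : ι, ∃ r : Tc, (f N, r) ∉ N.1 := fun N => not_forall.1 (hfG N)
  choose r hr using hr
  refine ⟨range fun N => (f N, r N), fun h0 => ?_, ?_⟩
  · obtain ⟨W, hW1, hW, hW0⟩ := exists_measurable_superset_of_null h0
    exact hr ⟨W, hW, hW0⟩ (hW1 ⟨_, rfl⟩)
  · rintro _ ⟨N, rfl⟩ _ ⟨M, rfl⟩ h
    rw [hf h]

/-- A uniformly distributed function on the circle. -/
lemma exists_unif : ∃ U : Tc → ℝ, Measurable U ∧
    ∀ c : ℝ, c ≤ 1 → volume {r | U r ≤ c} = ENNReal.ofReal c := by
  have hm : Measurable fun r : Tc => (AddCircle.equivIoc 1 0 r : ℝ) :=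
    measurable_subtype_coe.comp (AddCircle.measurePreserving_equivIoc 1).measurable
  refine ⟨fun r => (AddCircle.equivIoc 1 0 r : ℝ), hm, fun c hc => ?_⟩
  rw [← (UnitAddCircle.measurePreserving_mk 0).measure_preimage
    (measurableSet_le hm measurable_const).nullMeasurableSet,
    Measure.restrict_apply' measurableSet_Ioc]
  have : (fun x : ℝ => (x : UnitAddCircle)) ⁻¹' {r | (AddCircle.equivIoc 1 0 r : ℝ) ≤ c} ∩
      Ioc 0 (0 + 1) = Ioc 0 c := by
    ext x
    constructor
    · rintro ⟨h1, h2⟩
      have e := AddCircle.equivIoc_coe_of_mem h2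
      exact ⟨h2.1, e ▸ h1⟩
    · rintro ⟨h1, h2⟩
      have h3 : x ∈ Ioc (0 : ℝ) (0 + 1) := ⟨h1, by linarith⟩
      have e := AddCircle.equivIoc_coe_of_mem h3
      exact ⟨show (AddCircle.equivIoc 1 0 (x : UnitAddCircle) : ℝ) ≤ c by rw [e]; exact h2, h3⟩
  rw [this, Real.volume_Ioc, sub_zero]

instance : IsTopologicalAddGroup Bool where
  continuous_add := continuous_of_discreteTopology
  continuous_neg := continuous_of_discreteTopology

instance : lam.IsAddLeftInvariant := ⟨fun a => by
  have h := Measure.infinitePi_map_pi (fun _ : ℕ => (PMF.uniformOfFintype Bool).toMeasure)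
    (f := fun i (x : Bool) => a i + x) fun _ => measurable_of_countable _
  refine h.trans ?_
  unfold lam
  congr 1
  funext i
  refine Measure.ext_of_singleton fun b => ?_
  rw [Measure.map_apply (measurable_of_countable _) (measurableSet_singleton _)]
  have : (fun x : Bool => a i + x) ⁻¹' {b} = {-a i + b} := by
    ext x
    simp [eq_neg_add_iff_add_eq]
  rw [this]
  simp⟩

/-- An index set with more than `2 ^ 𝔠` elements. -/
abbrev Ix : Type := Set (Cn × ℕ → Bool)

/-- The big compact group. -/
def Yy : Type := Ix → Bool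

instance : AddCommGroup Yy := inferInstanceAs (AddCommGroup (Ix → Bool))
instance : TopologicalSpace Yy := inferInstanceAs (TopologicalSpace (Ix → Bool))
instance : IsTopologicalAddGroup Yy := inferInstanceAs (IsTopologicalAddGroup (Ix → Bool))
instance : CompactSpace Yy := inferInstanceAs (CompactSpace (Ix → Bool))
instance : T2Space Yy := inferInstanceAs (T2Space (Ix → Bool))
instance : MeasurableSpace Yy := borel Yy
instance : BorelSpace Yy := ⟨rfl⟩

/-- Haar measure on the big group. -/
def muY : Measure Yy := Measure.addHaarMeasure ⊤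

instance : muY.IsAddHaarMeasure := by
  unfold muY; infer_instance

instance : IsProbabilityMeasure muY := ⟨by
  have := Measure.addHaarMeasure_self (K₀ := (⊤ : TopologicalSpace.PositiveCompacts Yy))
  simpa [muY] using this⟩

/-- Sets of at most continuum many points are null. -/
lemma null_range (e : Cn × ℕ → Yy) : muY (range e) = 0 := by
  classical
  obtain ⟨a, ha⟩ := Cardinal.exists_infinite_fiber' (fun (i : Ix) (j : Cn × ℕ) => e j i)
    (by simpa using Cardinal.cantor #(Cn × ℕ → Bool))
  let q := Infinite.natEmbedding ((fun (i : Ix) (j : Cn × ℕ) => e j i) ⁻¹' {a})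
  have hq : Function.Injective fun n => (q n : Ix) := Subtype.val_injective.comp q.injective
  let S : Set Yy := {y | ∀ n, y (q n) = y (q 0)}
  have hS : IsClosed S := by
    have hc : ∀ i : Ix, Continuous fun y : Yy => y i := fun i =>
      continuous_apply (A := fun _ : Ix => Bool) i
    simp only [S, Set.ofPred_forall]
    exact isClosed_iInter fun n => isClosed_eq (hc _) (hc _)
  refine measure_mono_null (t := S) ?_ ?_
  · rintro _ ⟨j, rfl⟩ n
    exact (congrFun (q n).2 j).trans (congrFun (q 0).2 j).symm
  by_contra h0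
  let d : ℕ → Yy := fun n => (Pi.single (q (n + 1) : Ix) true : Ix → Bool)
  have hd : ∀ n m, d n (q m) = if m = n + 1 then true else false := by
    intro n m
    simp only [d, Pi.single_apply, hq.eq_iff]
    rfl
  have hfin := Measure.finite_const_le_meas_of_disjoint_iUnion muY (pos_iff_ne_zero.2 h0)
    (As := fun n => (fun y => d n + y) ⁻¹' S)
    (fun n => (measurable_const_add _) hS.measurableSet) ?_ (measure_ne_top _ _)
  · refine infinite_univ (hfin.subset fun n _ => ?_)
    exact (measure_preimage_add muY (d n) S).ge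
  · intro n m hnm
    refine disjoint_left.2 fun y h1 h2 => ?_
    have e1 : d n (q (n + 1)) + y (q (n + 1)) = d n (q 0) + y (q 0) := h1 (n + 1)
    have e2 : d m (q (n + 1)) + y (q (n + 1)) = d m (q 0) + y (q 0) := h2 (n + 1)
    rw [hd, hd] at e1 e2
    have : n + 1 ≠ m + 1 := by omega
    simp only [if_true, this, if_false, Nat.zero_ne_add_one] at e1 e2
    exact absurd (add_right_cancel (e1.trans e2.symm)) (by decide)

/-- The big space. -/
abbrev Bg : Type := Sm × Yy

/-- The measure on the big space. -/
def muB : Measure Bg := muS.prod muY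

instance : IsProbabilityMeasure muB := by
  unfold muB; infer_instance

instance : muB.InnerRegular := by
  have h1 : MeasurableAdd Cn := inferInstance
  have h2 : MeasurableAdd Tc := inferInstance
  have h3 : MeasurableAdd Sm := inferInstance
  have h4 : MeasurableAdd Yy := inferInstance
  have h5 : muS.IsAddLeftInvariant := by
    unfold muS; infer_instance
  have : muB.IsAddLeftInvariant := by
    unfold muB; infer_instance
  infer_instance

/-- Finite inner regular measures are perfect. -/
lemma perfect_of_radon {Ω : Type} [TopologicalSpace Ω] [T2Space Ω] [MeasurableSpace Ω]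
    [OpensMeasurableSpace Ω] (μ : Measure Ω) [IsFiniteMeasure μ] [μ.InnerRegular]
    (g : Ω → ℝ) (hg : Measurable g) (E : Set Ω) (hE : MeasurableSet E) (hpos : 0 < μ E) :
    ∃ K : Set ℝ, IsCompact K ∧ K ⊆ g '' E ∧ 0 < μ (g ⁻¹' K) := by
  have hB := TopologicalSpace.isBasis_countableBasis ℝ
  let ι := TopologicalSpace.countableBasis ℝ
  have : Countable ι := (TopologicalSpace.countable_countableBasis ℝ).to_subtype
  have hm : ∀ b : ι, MeasurableSet (g ⁻¹' b.1) := fun b => hg (hB.isOpen b.2).measurableSet
  obtain ⟨ε, hε, hs⟩ := ENNReal.exists_pos_sum_of_countable' hpos.ne' (ι ⊕ ι)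
  choose K hK1 hK2 hK3 using fun b : ι =>
    (hE.inter (hm b)).exists_isCompact_sdiff_lt (measure_ne_top μ _) (hε (Sum.inl b)).ne'
  choose L hL1 hL2 hL3 using fun b : ι =>
    (hE.diff (hm b)).exists_isCompact_sdiff_lt (measure_ne_top μ _) (hε (Sum.inr b)).ne'
  obtain ⟨b0, hb0, -⟩ := hB.exists_subset_of_mem_open (mem_univ (0 : ℝ)) isOpen_univ
  let C : Set Ω := ⋂ b, (K b ∪ L b)
  have hC : IsCompact C := ((hK2 ⟨b0, hb0⟩).union (hL2 _)).of_isClosed_subset
    (isClosed_iInter fun b => ((hK2 b).union (hL2 b)).isClosed) (iInter_subset _ _)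
  have hCE : C ⊆ E := (iInter_subset _ ⟨b0, hb0⟩).trans
    (union_subset ((hK1 _).trans inter_subset_left) ((hL1 _).trans sdiff_subset))
  have hcont : ContinuousOn g C := by
    refine hB.continuousOn_iff.2 fun b hb => ⟨(L ⟨b, hb⟩)ᶜ, (hL2 _).isClosed.isOpen_compl, ?_⟩
    ext x
    refine and_congr_left fun hx => ⟨fun h1 h2 => (hL1 _ h2).2 h1, fun h1 => ?_⟩
    exact (hK1 _ ((mem_iInter.1 hx ⟨b, hb⟩).resolve_right h1)).2
  refine ⟨g '' C, hC.image_of_continuousOn hcont, image_mono hCE,
    lt_of_lt_of_le (pos_iff_ne_zero.2 fun h0 => ?_) (measure_mono (subset_preimage_image g C))⟩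
  let D : ι ⊕ ι → Set Ω := Sum.elim (fun b => (E ∩ g ⁻¹' b.1) \ K b) fun b => (E \ g ⁻¹' b.1) \ L b
  have h1 : E ⊆ C ∪ ⋃ i, D i := by
    intro x hx
    by_cases hxC : x ∈ C
    · exact Or.inl hxC
    · obtain ⟨b, hb⟩ := not_forall.1 (fun h => hxC (mem_iInter.2 h))
      by_cases hg' : x ∈ g ⁻¹' b.1
      · exact Or.inr (mem_iUnion.2 ⟨Sum.inl b, ⟨hx, hg'⟩, fun h => hb (Or.inl h)⟩)
      · exact Or.inr (mem_iUnion.2 ⟨Sum.inr b, ⟨hx, hg'⟩, fun h => hb (Or.inr h)⟩)
  have h2 := (measure_mono h1).trans (measure_union_le (μ := μ) _ _)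
  rw [h0, zero_add] at h2
  refine absurd ((h2.trans (measure_iUnion_le _)).trans (ENNReal.tsum_le_tsum fun i => ?_))
    (not_le.2 hs)
  rcases i with b | b
  · exact (hK3 b).le
  · exact (hL3 b).le

end Pool.Agent.MP_0f15b2_an.Rd

end
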