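import Mathlib.MeasureTheory.VectorMeasure.Variation.Basic
import Mathlib.Topology.MetricSpace.UniformConvergence
import Mathlib.MeasureTheory.Measure.Decomposition.RadonNikodym
import Pool.Agent.MP_0f15b2_an.Rd.Base

/-!
The Banach space of the Radon form of the counterexample, the vector measures, and criteria for
the existence and the non-existence of a Pettis density.
-/

set_option autoImplicit false

open Filter Topology Set MeasureTheory
open scoped ENNReal

noncomputable section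

namespace Pool.Agent.MP_0f15b2_an.Rd

open Classical

/-- Bounded families of summable families. -/
abbrev B2 : Type := lp (fun _ : Cn => lp (fun _ : Yy => ℝ) 1) ∞

/-- Summable families of bounded families. -/
abbrev B3 : Type := lp (fun _ : Cn => lp (fun _ : Yy => ℝ) ∞) 1

instance : AddCommMonoid Ax := (inferInstance : NormedAddCommGroup Ax).toAddCommMonoid
instance : AddCommMonoid B2 := (inferInstance : NormedAddCommGroup B2).toAddCommMonoid
instance : AddCommMonoid B3 := (inferInstance : NormedAddCommGroup B3).toAddCommMonoid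

/-- The ambient space. -/
abbrev Am : Type := Ax × B2 × B3

instance : NormedAddCommGroup Am := inferInstance
instance : AddCommMonoid Am := (inferInstance : NormedAddCommGroup Am).toAddCommMonoid

/-- The visible coordinate at a node. -/
def ev (s : Nd) : Am →L[ℝ] ℝ :=
  (ContinuousLinearMap.fst ℝ ℝ Mx).comp ((lp.evalCLM ℝ (fun _ : Nd => Ex) ∞ s).comp
    (ContinuousLinearMap.fst ℝ Ax (B2 × B3)))

lemma ev_apply (s : Nd) (x : Am) : ev s x = (x.1 s).1 := rfl

/-- The second component at a point. -/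
def c2 (t : Cn) : Am →L[ℝ] lp (fun _ : Yy => ℝ) 1 :=
  (lp.evalCLM ℝ (fun _ : Cn => lp (fun _ : Yy => ℝ) 1) ∞ t).comp
    ((ContinuousLinearMap.fst ℝ B2 B3).comp (ContinuousLinearMap.snd ℝ Ax (B2 × B3)))

lemma c2_apply (t : Cn) (x : Am) : c2 t x = x.2.1 t := rfl

/-- The third component at a point. -/
def c3 (t : Cn) : Am →L[ℝ] lp (fun _ : Yy => ℝ) ∞ :=
  (lp.evalCLM ℝ (fun _ : Cn => lp (fun _ : Yy => ℝ) ∞) 1 t).comp
    ((ContinuousLinearMap.snd ℝ B2 B3).comp (ContinuousLinearMap.snd ℝ Ax (B2 × B3)))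

lemma c3_apply (t : Cn) (x : Am) : c3 t x = x.2.2 t := rfl

/-- The sum of the second component at a point. -/
def sg (t : Cn) : Am →L[ℝ] ℝ := (lp.tsumCLM ℝ Yy ℝ).comp (c2 t)

lemma sg_apply (t : Cn) (x : Am) : sg t x = ∑' y, x.2.1 t y := rfl

/-- The Banach space of the counterexample. -/
def Xr : Submodule ℝ Am where
  carrier := {x | (∀ t, Tendsto (fun n => ev (trunc t n) x) atTop (𝓝 (sg t x))) ∧
    ∀ t y, c2 t x y = c3 t x y}
  add_mem' := by
    rintro a b ⟨a1, a2⟩ ⟨b1, b2⟩
    refine ⟨fun t => by simpa only [map_add] using (a1 t).add (b1 t), fun t y => ?_⟩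
    simp only [map_add, lp.coeFn_add, Pi.add_apply, a2, b2]
  zero_mem' := ⟨fun t => by simp, fun t y => by simp⟩
  smul_mem' := by
    rintro r a ⟨a1, a2⟩
    refine ⟨fun t => by simpa only [map_smul] using (a1 t).const_smul r, fun t y => ?_⟩
    simp only [map_smul, lp.coeFn_smul, Pi.smul_apply, a2]

lemma isClosed_Xr : IsClosed (Xr : Set Am) := by
  have h1 : ∀ s, LipschitzWith 1 (ev s) := fun s =>
    AddMonoidHomClass.lipschitz_of_bound_nnnorm _ _ fun x => by
      rw [one_mul, ← NNReal.coe_le_coe]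
      exact (norm_fst_le _).trans ((lp.norm_apply_le_norm (by simp) x.1 s).trans (norm_fst_le x))
  refine IsClosed.inter (s₁ := {x | ∀ t, Tendsto (fun n => ev (trunc t n) x) atTop (𝓝 (sg t x))})
    (s₂ := {x | ∀ t y, c2 t x y = c3 t x y}) ?_ ?_
  · simp only [Set.ofPred_forall]
    exact isClosed_iInter fun t =>
      (LipschitzWith.uniformEquicontinuous (fun n => ev (trunc t n)) 1
        fun n => h1 _).equicontinuous.isClosed_setOfPred_tendsto (sg t).continuous
  · simp only [Set.ofPred_forall]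
    exact isClosed_iInter fun t => isClosed_iInter fun y => isClosed_eq
      ((lp.evalCLM ℝ (fun _ : Yy => ℝ) 1 y).comp (c2 t)).continuous
      ((lp.evalCLM ℝ (fun _ : Yy => ℝ) ∞ y).comp (c3 t)).continuous

instance : CompleteSpace Xr := isClosed_Xr.completeSpace_coe

/-- The projection that forgets the second coordinate of the fibre. -/
def Pj : Ax →L[ℝ] Ax :=
  lp.mapCLM ∞ (fun _ : Nd => (ContinuousLinearMap.inl ℝ ℝ Mx).comp (ContinuousLinearMap.fst ℝ ℝ Mx))
    zero_le_one fun _ => ContinuousLinearMap.opNorm_le_bound _ zero_le_one fun x => by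
      simp [Prod.norm_def]

lemma Pj_apply (x : Ax) (s : Nd) : Pj x s = ((x s).1, 0) := rfl

/-- The indicator of a branch. -/
def br (t : Cn) : Ax := Pj (gN 0 t (exists_mem_good fun _ _ => 0).choose)

lemma br_apply (t : Cn) (s : Nd) : (br t s).1 = if t ∈ cyl s then 1 else 0 := by
  rw [br, Pj_apply, gN_apply]
  by_cases h : t ∈ cyl s <;> simp [h]

lemma countable_br (ξ : Ax →L[ℝ] ℝ) : {t : Cn | ξ (br t) ≠ hh ξ t}.Countable := by
  have e : ∀ s, Pj (ee s) = ee s := fun s => lp.ext (funext fun s' => by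
    rw [Pj_apply]
    by_cases h : s' = s
    · subst h; simp [ee]
    · simp [ee, lp.single_apply, Pi.single_eq_of_ne h])
  have e0 : ∀ s k, Pj (lp.single ∞ s (((0 : ℝ), dl k) : Ex)) = 0 := fun s k =>
    lp.ext (funext fun s' => by
      rw [Pj_apply]
      by_cases h : s' = s
      · subst h; simp
      · simp [lp.single_apply, Pi.single_eq_of_ne h])
  refine (countable_bad (ξ.comp Pj)).mono fun t ht => ?_
  refine ⟨(exists_mem_good fun _ _ => 0).choose, mem_iInter.2 fun s n => ?_, ?_⟩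
  · simp only [ContinuousLinearMap.comp_apply, e0]
  · have : hh (ξ.comp Pj) t = hh ξ t := by
      simp only [hh, ContinuousLinearMap.comp_apply, e]
    rw [this]
    exact ht

lemma countable_single {ι E : Type} [NormedAddCommGroup E] [NormedSpace ℝ E]
    (ξ : lp (fun _ : ι => E) ∞ →L[ℝ] ℝ) (v : ι → E) (hv : ∀ i, ‖v i‖ ≤ 1) :
    {i | ξ (lp.single ∞ i (v i)) ≠ 0}.Countable := by
  have hs : Summable fun i => |ξ (lp.single ∞ i (v i))| := by
    refine summable_of_sum_le (c := ‖ξ‖) (fun _ => abs_nonneg _) fun F => ?_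
    set ε : ι → ℝ := fun i => if 0 ≤ ξ (lp.single ∞ i (v i)) then 1 else -1 with hε
    have h1 : ∑ i ∈ F, |ξ (lp.single ∞ i (v i))| =
        ξ (∑ i ∈ F, lp.single ∞ i (ε i • v i)) := by
      rw [map_sum]
      refine Finset.sum_congr rfl fun i _ => ?_
      rw [lp.single_smul, map_smul, smul_eq_mul]
      simp only [hε]
      split_ifs with h
      · simp [abs_of_nonneg h]
      · simp [abs_of_neg (not_le.1 h)]
    have h2 : ‖∑ i ∈ F, (lp.single ∞ i (ε i • v i) : lp (fun _ : ι => E) ∞)‖ ≤ 1 := by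
      refine lp.norm_le_of_forall_le zero_le_one fun s => ?_
      rw [lp.coeFn_sum, Finset.sum_apply]
      simp only [lp.single_apply]
      rw [Finset.sum_pi_single]
      split_ifs
      · have : |ε s| = 1 := by
          simp only [hε]; split_ifs <;> simp
        rw [norm_smul, Real.norm_eq_abs, this, one_mul]
        exact hv s
      · simp
    rw [h1]
    exact (le_abs_self _).trans (by simpa using ξ.unit_le_opNorm _ h2)
  exact hs.countable_support.mono fun i hi => by simpa using hi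

/-- Unit vectors of the second component. -/
def d2 (t : Cn) (y : Yy) : B2 := lp.single ∞ t (lp.single 1 y 1)

/-- Unit vectors of the third component. -/
def d3 (t : Cn) (y : Yy) : B3 := lp.single 1 t (lp.single ∞ y 1)

/-- The values of the density. -/
def gg (t : Cn) (y : Yy) : Xr := ⟨(br t, d2 t y, d3 t y), fun u => by
  simp only [ev_apply, sg_apply, br_apply, d2]
  by_cases h : u = t
  · subst h
    simp [mem_cyl_trunc, lp.single_apply, Pi.single_apply]
  · have : ∀ᶠ n in atTop, (0 : ℝ) = if t ∈ cyl (trunc u n) then 1 else 0 := by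
      filter_upwards [eventually_trunc_ne (Ne.symm h)] with n hn
      rw [if_neg (by rwa [mem_cyl_trunc_iff])]
    simpa [lp.single_apply, Pi.single_eq_of_ne h] using tendsto_const_nhds.congr' this,
  fun u z => by
    simp only [c2_apply, c3_apply, d2, d3]
    by_cases h : u = t
    · subst h
      simp [lp.single_apply]
    · simp [lp.single_apply, Pi.single_eq_of_ne h]⟩

/-- A functional agrees with its scalar density off countably many `t` and continuum many `y`. -/
lemma apply_gg (ξ : Am →L[ℝ] ℝ) : ∃ (C : Set Cn) (e : Cn × ℕ → Yy), C.Countable ∧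
    ∀ t ∉ C, ∀ y ∉ range e,
      ξ (gg t y) = hh (ξ.comp (ContinuousLinearMap.inl ℝ Ax (B2 × B3))) t := by
  let ξ1 := ξ.comp (ContinuousLinearMap.inl ℝ Ax (B2 × B3))
  let ξ2 := (ξ.comp (ContinuousLinearMap.inr ℝ Ax (B2 × B3))).comp (ContinuousLinearMap.inl ℝ B2 B3)
  let ξ3 := (ξ.comp (ContinuousLinearMap.inr ℝ Ax (B2 × B3))).comp (ContinuousLinearMap.inr ℝ B2 B3)
  have hsum : ∀ t y, ξ (gg t y) = ξ1 (br t) + ξ2 (d2 t y) + ξ3 (d3 t y) := by
    intro t y
    simp only [ξ1, ξ2, ξ3, ContinuousLinearMap.comp_apply, ← map_add]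
    congr 1
    simp [gg]
  have h2 : ∀ t, ∃ y, (∃ z, ξ2 (d2 t z) ≠ 0) → ξ2 (d2 t y) ≠ 0 := fun t => by
    by_cases h : ∃ z, ξ2 (d2 t z) ≠ 0
    · exact ⟨h.choose, fun _ => h.choose_spec⟩
    · exact ⟨0, fun h' => absurd h' h⟩
  choose v hv using h2
  have c2' := countable_single ξ2 (fun t => lp.single 1 (v t) 1) fun t => by
    rw [lp.norm_single (by norm_num)]; simp
  have h3 : ∀ t, ∃ f : ℕ → Yy, insert 0 {y | ξ3 (d3 t y) ≠ 0} = range f := fun t =>
    ((countable_single (ξ3.comp (lp.singleContinuousLinearMap ℝ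
      (fun _ : Cn => lp (fun _ : Yy => ℝ) ∞) 1 t)) (fun _ => 1) fun _ => by simp).insert
        0).exists_eq_range (insert_nonempty _ _)
  choose f hf using h3
  refine ⟨_, fun i => f i.1 i.2, (countable_br ξ1).union c2', fun t ht y hy => ?_⟩
  have a1 : ξ1 (br t) = hh ξ1 t := not_not.1 fun h => ht (Or.inl h)
  have a2 : ξ2 (d2 t y) = 0 := not_not.1 fun h => ht (Or.inr (hv t ⟨y, h⟩))
  have a3 : ξ3 (d3 t y) = 0 := not_not.1 fun h => by
    obtain ⟨n, hn⟩ : y ∈ range (f t) := hf t ▸ Or.inr h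
    exact hy ⟨(t, n), hn⟩
  rw [hsum, a1, a2, a3, add_zero, add_zero]

section general

variable {Ω : Type} [MeasurableSpace Ω] (μ : Measure Ω) [IsFiniteMeasure μ] {p : Ω → Cn}

lemma nuA_mem' (hp : MeasurePreserving p μ lam) (E : Set Ω) : ((nuA μ p E, 0, 0) : Am) ∈ Xr := by
  refine ⟨fun t => ?_, fun t y => rfl⟩
  have hb : ∀ n, μ.real (E ∩ p ⁻¹' cyl (trunc t n)) ≤ (2⁻¹ : ℝ) ^ n := by
    intro n
    refine (measureReal_mono inter_subset_right).trans ?_
    rw [Measure.real, hp.measure_preimage (measurableSet_cyl _).nullMeasurableSet]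
    simpa using ENNReal.toReal_mono (by simp) (lam_cyl (trunc t n))
  have := squeeze_zero (fun _ => measureReal_nonneg) hb
    (tendsto_pow_atTop_nhds_zero_of_lt_one (by norm_num) (by norm_num))
  simpa [ev_apply, sg_apply, nuA_apply] using this

/-- The vector measure. -/
def nuR (hp : MeasurePreserving p μ lam) : VectorMeasure Ω Xr where
  measureOf' E := if MeasurableSet E then ⟨(nuA μ p E, 0, 0), nuA_mem' μ hp E⟩ else 0
  empty' := by
    rw [if_pos MeasurableSet.empty]
    refine Subtype.ext (Prod.ext (norm_eq_zero.1 ?_) rfl)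
    simpa using norm_nuA μ (p := p) ∅
  not_measurable' _ h := if_neg h
  m_iUnion' f hf hd := by
    simp only [hf, MeasurableSet.iUnion hf, if_true]
    have h := (hasSum_nuA_iUnion μ hp.measurable hf hd).prodMk (hasSum_zero (α := B2 × B3))
    exact (IsInducing.subtypeVal.hasSum_iff (g := Xr.subtype) _ _).1 h

lemma coe_nuR (hp : MeasurePreserving p μ lam) {E : Set Ω} (hE : MeasurableSet E) :
    ((nuR μ hp E : Xr) : Am) = (nuA μ p E, 0, 0) := by
  change (((if MeasurableSet E then ⟨(nuA μ p E, 0, 0), nuA_mem' μ hp E⟩ else 0 : Xr)) : Am) = _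
  rw [if_pos hE]

lemma norm_nuR (hp : MeasurePreserving p μ lam) (E : Set Ω) (hE : MeasurableSet E) :
    ‖nuR μ hp E‖ = μ.real E := by
  rw [← norm_nuA μ (p := p), ← Submodule.norm_coe, coe_nuR μ hp hE]
  simp [Prod.norm_def]

lemma variation_eq_of {X : Type} [NormedAddCommGroup X] (ν : VectorMeasure Ω X)
    (h : ∀ E, MeasurableSet E → ‖ν E‖ = μ.real E) : ν.variation = μ := by
  have h' : ∀ E, MeasurableSet E → ‖ν E‖ₑ = μ E := fun E hE => by
    rw [← ENNReal.ofReal_toReal (measure_ne_top μ E), ← Measure.real, ← h E hE, ofReal_norm]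
  refine le_antisymm (VectorMeasure.variation_le_of_forall_enorm_le fun E hE => (h' E hE).le) ?_
  exact Measure.le_iff.2 fun E hE =>
    (h' E hE).ge.trans (VectorMeasure.enorm_measure_le_variation _ E)

/-- Every value of the vector measure is attained on a Borel subset of the small space. -/
lemma exists_small (hp : MeasurePreserving p μ lam) {E : Set Ω} :
    ∃ A : Set Sm, MeasurableSet A ∧
      ∀ s, μ (E ∩ p ⁻¹' cyl s) = muS (A ∩ Prod.fst ⁻¹' cyl s) := by
  obtain ⟨U, hU, hUc⟩ := exists_unif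
  let m : Measure Cn := (μ.restrict E).map p
  have hle : m ≤ lam := hp.map_eq ▸ Measure.map_mono Measure.restrict_le_self hp.measurable
  have hu : Measurable fun t => (m.rnDeriv lam t).toReal :=
    (Measure.measurable_rnDeriv m lam).ennreal_toReal
  have hA : MeasurableSet {ω : Sm | U ω.2 ≤ (m.rnDeriv lam ω.1).toReal} :=
    measurableSet_le (hU.comp measurable_snd) (hu.comp measurable_fst)
  refine ⟨_, hA, fun s => ?_⟩
  have hs := measurableSet_cyl s
  have e1 : μ (E ∩ p ⁻¹' cyl s) = m (cyl s) := by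
    rw [Measure.map_apply hp.measurable hs, Measure.restrict_apply (hp.measurable hs), inter_comm]
  rw [e1, ← Measure.setLIntegral_rnDeriv (Measure.absolutelyContinuous_of_le hle), muS,
    Measure.prod_apply (hA.inter (measurable_fst hs)), ← lintegral_indicator hs]
  refine lintegral_congr_ae ?_
  filter_upwards [Measure.rnDeriv_le_one_of_le hle] with t ht
  have ht' : m.rnDeriv lam t ≤ 1 := ht
  by_cases h : t ∈ cyl s
  · have e : Prod.mk t ⁻¹' ({ω : Sm | U ω.2 ≤ (m.rnDeriv lam ω.1).toReal} ∩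
        Prod.fst ⁻¹' cyl s) = {r | U r ≤ (m.rnDeriv lam t).toReal} := by
      ext r; simp [h]
    rw [indicator_of_mem h, e, hUc _ (by simpa using ENNReal.toReal_mono (by simp) ht'),
      ENNReal.ofReal_toReal (ne_top_of_le_ne_top ENNReal.one_ne_top ht')]
  · have e : Prod.mk t ⁻¹' ({ω : Sm | U ω.2 ≤ (m.rnDeriv lam ω.1).toReal} ∩
        Prod.fst ⁻¹' cyl s) = ∅ := by
      ext r; simp [h]
    rw [indicator_of_notMem h, e, measure_empty]

lemma nuR_eq {Ω' : Type} [MeasurableSpace Ω'] (μ' : Measure Ω') [IsFiniteMeasure μ']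
    {p' : Ω' → Cn} (hp : MeasurePreserving p μ lam) (hp' : MeasurePreserving p' μ' lam)
    {E : Set Ω} {E' : Set Ω'} (hE : MeasurableSet E) (hE' : MeasurableSet E')
    (h : ∀ s, μ (E ∩ p ⁻¹' cyl s) = μ' (E' ∩ p' ⁻¹' cyl s)) : nuR μ hp E = nuR μ' hp' E' := by
  refine Subtype.ext ?_
  rw [coe_nuR _ _ hE, coe_nuR _ _ hE']
  refine Prod.ext (lp.ext (funext fun s => ?_)) rfl
  exact Prod.ext (congrArg ENNReal.toReal (h s)) rfl

omit [IsFiniteMeasure μ] in
lemma mp_completion (hp : MeasurePreserving p μ lam) :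
    MeasurePreserving (α := NullMeasurableSpace Ω μ) p μ.completion lam := by
  have hm : Measurable (α := NullMeasurableSpace Ω μ) p :=
    fun B hB => (hp.measurable hB).nullMeasurableSet
  refine ⟨hm, ?_⟩
  ext B hB
  rw [Measure.map_apply hm hB]
  exact hp.measure_preimage hB.nullMeasurableSet

omit [IsFiniteMeasure μ] in
lemma innerRegular_completion [t : TopologicalSpace Ω] [μ.InnerRegular] :
    @Measure.InnerRegular (NullMeasurableSpace Ω μ) _ t μ.completion := by
  refine @Measure.InnerRegular.mk (NullMeasurableSpace Ω μ) _ t _ fun E hE r hr => ?_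
  obtain ⟨F, hFE, hF, hae⟩ := (show NullMeasurableSet (α := Ω) E μ from
    hE).exists_measurable_subset_ae_eq
  obtain ⟨K, hKF, hK, hr'⟩ := hF.exists_lt_isCompact
    (show r < μ F from hr.trans_eq (measure_congr hae).symm)
  exact ⟨K, hKF.trans hFE, hK, hr'⟩

/-- Existence of a Pettis density. -/
lemma pettis_of (hp : MeasurePreserving p μ lam) (y : Ω → Yy)
    (hy : ∀ e : Cn × ℕ → Yy, μ (y ⁻¹' range e) = 0) :
    ∃ f : Ω → Xr, ∀ φ : Xr →L[ℝ] ℝ, Integrable (fun ω => φ (f ω)) μ ∧
      ∀ E : Set Ω, MeasurableSet E → φ (nuR μ hp E) = ∫ ω in E, φ (f ω) ∂μ := by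
  refine ⟨fun ω => gg (p ω) (y ω), fun φ => ?_⟩
  obtain ⟨ξ, hξ, -⟩ := exists_extension_norm_eq Xr φ
  obtain ⟨C, e, hC, h⟩ := apply_gg ξ
  set ξ1 := ξ.comp (ContinuousLinearMap.inl ℝ Ax (B2 × B3))
  have h1 : μ (p ⁻¹' C) = 0 := by
    rw [hp.measure_preimage hC.measurableSet.nullMeasurableSet]
    exact hC.measure_zero _
  have hae : (fun ω => hh ξ1 (p ω)) =ᵐ[μ] fun ω => φ (gg (p ω) (y ω)) := by
    filter_upwards [measure_eq_zero_iff_ae_notMem.1 h1, measure_eq_zero_iff_ae_notMem.1 (hy e)]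
      with ω a1 a2
    rw [← hξ, h _ a1 _ a2]
  refine ⟨(integrable_hh μ hp.measurable ξ1).congr hae, fun E hE => ?_⟩
  rw [← hξ, coe_nuR μ hp hE, ← integral_congr_ae (ae_restrict_of_ae hae),
    ← apply_nuA μ hp ξ1 E]
  rfl

/-- A summable family on Cantor space with zero sums over all cylinders vanishes. -/
lemma eq_zero_of_cyl {w : Cn → ℝ} (hw : Summable fun u => ‖w u‖) (t : Cn)
    (h : ∀ s, ∑' u, (cyl s).indicator w u = 0) : w t = 0 := by
  have hlim := tendsto_tsum_of_dominated_convergence (𝓕 := atTop)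
    (f := fun (n : ℕ) (u : Cn) => (cyl (trunc t n)).indicator w u)
    (g := fun u => if u = t then w t else 0) hw ?_
    (Eventually.of_forall fun n u => norm_indicator_le_norm_self _ _)
  · simp only [h, tsum_ite_eq] at hlim
    exact (tendsto_const_nhds_iff.1 hlim).symm
  · intro u
    by_cases hu : u = t
    · subst hu
      simp [mem_cyl_trunc]
    · simp only [hu, if_false]
      refine tendsto_const_nhds.congr' ?_
      filter_upwards [eventually_trunc_ne hu] with n hn
      rw [indicator_of_notMem]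
      rwa [mem_cyl_trunc_iff]

/-- Non-existence of a Pettis density. -/
lemma not_pettis_of (hp : MeasurePreserving p μ lam) {Γ : Set Ω} (hΓ : μ Γ ≠ 0)
    (hinj : InjOn p Γ) :
    ¬ ∃ f : Ω → Xr, ∀ φ : Xr →L[ℝ] ℝ, Integrable (fun ω => φ (f ω)) μ ∧
      ∀ E : Set Ω, MeasurableSet E → φ (nuR μ hp E) = ∫ ω in E, φ (f ω) ∂μ := by
  rintro ⟨g, hg⟩
  have hv : ∀ t, ∃ y, ∀ ω ∈ Γ, p ω = t → (∃ z, c3 t (g ω) z ≠ 0) → c3 t (g ω) y ≠ 0 := by
    intro t
    by_cases h : ∃ ω ∈ Γ, p ω = t ∧ ∃ z, c3 t (g ω) z ≠ 0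
    · obtain ⟨ω, h1, h2, z, hz⟩ := h
      exact ⟨z, fun ω' h3 h4 _ => hinj h1 h3 (h2.trans h4.symm) ▸ hz⟩
    · exact ⟨0, fun ω h1 h2 h3 => absurd ⟨ω, h1, h2, h3⟩ h⟩
  choose v hv using hv
  have hnorm : ∀ (s : Nd) (u : Cn),
      ‖if u ∈ cyl s then lp.evalCLM ℝ (fun _ : Yy => ℝ) ∞ (v u) else 0‖ ≤ 1 := by
    intro s u
    split_ifs
    · exact ContinuousLinearMap.opNorm_le_bound _ zero_le_one fun x => by
        rw [one_mul]; exact lp.norm_apply_le_norm (by simp) x (v u)
    · simp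
  let ψ : Nd → (Am →L[ℝ] ℝ) := fun s => (lp.tsumCLM ℝ Cn ℝ).comp
    ((lp.mapCLM 1 _ zero_le_one (hnorm s)).comp
      ((ContinuousLinearMap.snd ℝ B2 B3).comp (ContinuousLinearMap.snd ℝ Ax (B2 × B3))))
  have hψ : ∀ s x, ψ s x = ∑' u, (cyl s).indicator (fun u => x.2.2 u (v u)) u := by
    intro s x
    simp only [ψ, ContinuousLinearMap.comp_apply, lp.tsumCLM_apply]
    congr 1
    funext u
    by_cases hu : u ∈ cyl s
    · simp [lp.mapCLM, hu]
      rfl
    · simp [lp.mapCLM, hu]
  have hm : ∀ s, MeasurableSet (p ⁻¹' cyl s) := fun s => hp.measurable (measurableSet_cyl s)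
  have h1 : ∀ s : Nd, ∀ᵐ ω ∂μ, ev s (g ω) = (p ⁻¹' cyl s).indicator (fun _ => (1 : ℝ)) ω := by
    intro s
    obtain ⟨hi, hA⟩ := hg ((ev s).comp Xr.subtypeL)
    refine hi.ae_eq_of_forall_setIntegral_eq _ _
      ((integrable_const _).indicator (hm s)) fun A hAm _ => ?_
    rw [← hA A hAm, integral_indicator_const _ (hm s), measureReal_restrict_apply (hm s),
      inter_comm]
    simp only [ContinuousLinearMap.comp_apply, Submodule.subtypeL_apply, coe_nuR _ _ hAm,
      ev_apply, nuA_apply]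
    simp
  have h2 : ∀ s : Nd, ∀ᵐ ω ∂μ, ψ s (g ω) = 0 := by
    intro s
    obtain ⟨hi, hA⟩ := hg ((ψ s).comp Xr.subtypeL)
    refine hi.ae_eq_of_forall_setIntegral_eq _ _ (integrable_zero _ _ _) fun A hAm _ => ?_
    rw [← hA A hAm]
    simp only [ContinuousLinearMap.comp_apply, Submodule.subtypeL_apply, coe_nuR _ _ hAm, hψ]
    simp
  obtain ⟨ω, hω, a1, a2⟩ := ((frequently_ae_mem_iff.2 hΓ).and_eventually
    ((ae_all_iff.2 h1).and (ae_all_iff.2 h2))).exists
  have hs : Summable fun u => ‖(g ω : Am).2.2 u (v u)‖ :=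
    Summable.of_nonneg_of_le (fun _ => norm_nonneg _)
      (fun u => lp.norm_apply_le_norm (by simp) _ _) (by simpa using (g ω : Am).2.2.2.summable)
  refine hv (p ω) ω hω rfl ?_ (eq_zero_of_cyl hs (p ω) fun s => (hψ s _).symm.trans (a2 s))
  by_contra hz
  push Not at hz
  have b1 := (g ω).2.1 (p ω)
  have b2 : sg (p ω) (g ω) = 0 := by
    rw [sg_apply]
    simp only [← c2_apply, (g ω).2.2, hz, tsum_zero]
  have b3 : ∀ n, ev (trunc (p ω) n) (g ω) = 1 := fun n => by
    rw [a1, indicator_of_mem (show ω ∈ p ⁻¹' cyl _ from mem_cyl_trunc _ n)]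
  simp only [b2, b3] at b1
  exact one_ne_zero (tendsto_const_nhds_iff.1 b1)

end general

end Pool.Agent.MP_0f15b2_an.Rd

end
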